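import Pool.Agent.Helper26.WR.Stmts

/-! # Module ELA: the conductors of elementary abelian extensions are integers prime to `p` -/

set_option autoImplicit false

namespace Pool.Agent.Helper26.WR

open Pool.Agent.Helper21.DN

universe u

/-- the conductors of elementary abelian extensions are integers prime to `p` -/
def ST_ELA : Prop := ∀ (p : ℕ) [Fact p.Prime] (k : Type u) [Field k] [CharP k p] [IsAlgClosed k]
  (B : Type) [Group B] [Finite B] [Nontrivial B], (∀ x y : B, x * y = y * x) →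
  (∀ x : B, x ^ p = 1) → ∀ c ∈ condSet k B, ∃ n : ℕ, ¬ p ∣ n ∧ c = (n : ℝ)

theorem ela_pow {G : Type u} [Group G] [Fintype G] (f : G → ℕ) (hf : RF f) (g : G) (i : ℕ)
    (hi : g ^ i ≠ 1) : f g ≤ f (g ^ i) := by
  have hg1 : g ≠ 1 := by
    rintro rfl
    exact hi (one_pow i)
  induction i using Nat.strong_induction_on with
  | _ i ih =>
    rcases i with _ | i
    · exact absurd (pow_zero g) hi
    by_cases h1 : g ^ i = 1
    · rw [pow_succ, h1, one_mul]
    · have h2 := ih i (Nat.lt_succ_self i) h1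
      have h3 := hf.mul (g ^ i) g h1 hg1 (by rw [← pow_succ]; exact hi)
      rw [← pow_succ, min_eq_right h2] at h3
      exact h3

/-- the conductor of a ramification function on a group of order `p` -/
theorem ela_cond (p : ℕ) [hp : Fact p.Prime] {G : Type u} [Group G] [Fintype G] (f : G → ℕ)
    (hf : RF f) (hG : Nat.card G = p) (g : G) (hg : g ≠ 1) :
    Pool.Agent.Helper21.DN.cond f = (f g : ℝ) := by
  classical
  have hmem : ∀ x y : G, x ≠ 1 → y ∈ Subgroup.zpowers x := by
    intro x y hx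
    have h1 : Subgroup.zpowers x = ⊤ := by
      have h2 := zpowers_eq_top_of_prime_card hG hx
      exact h2
    rw [h1]; trivial
  have hle : ∀ x y : G, x ≠ 1 → y ≠ 1 → f x ≤ f y := by
    intro x y hx hy
    obtain ⟨i, hi⟩ := mem_powers_iff_mem_zpowers.mpr (hmem x y hx)
    have hi' : x ^ i = y := hi
    rw [← hi']
    exact ela_pow f hf x i (by rw [hi']; exact hy)
  have hall : ∀ x : G, x ≠ 1 → f x = f g := fun x hx => le_antisymm (hle x g hx hg) (hle g x hg hx)
  have hcard : Fintype.card G = p := by rw [← Nat.card_eq_fintype_card, hG]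
  have hS1 : S1 f = (p - 1) * f g := by
    unfold S1
    rw [Finset.sum_congr rfl (fun x hx => hall x (Finset.mem_filter.mp hx).2), Finset.sum_const,
      smul_eq_mul]
    congr 1
    rw [Finset.filter_ne', Finset.card_erase_of_mem (Finset.mem_univ _), Finset.card_univ, hcard]
  have hx0 : x0 f = f g := by
    unfold x0
    apply le_antisymm
    · apply Finset.sup_le
      intro x hx
      exact (hall x (Finset.mem_filter.mp hx).2).le
    · exact Finset.le_sup (f := f) (Finset.mem_filter.mpr ⟨Finset.mem_univ g, hg⟩)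
  unfold Pool.Agent.Helper21.DN.cond
  rw [hS1, hx0, hcard]
  have hp1 : 1 ≤ p := hp.out.one_lt.le
  have hp0 : (p : ℝ) ≠ 0 := by exact_mod_cast hp.out.ne_zero
  push_cast [Nat.cast_sub hp1]
  field_simp
  ring

theorem st_ELA (hRAM : ST_RAM.{u}) (hCOND : ST_COND.{u}) (hCENT : ST_CENT.{u}) (hRFV : ST_RFV.{u})
    (hHBF : ST_HBF.{u}) (hPHM : ST_PHM.{u}) (hTOW : ST_TOW.{u}) (hCHR : ST_CHR.{u})
    (hAS1 : Pool.Agent.Helper20.NP.ST_AS1.{u}) : ST_ELA.{u} := by
  intro p hp k _ _ _ B _ _ _ hcomm hexp c hc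
  classical
  obtain ⟨L, iF, iA, hfd, hgal, ⟨e⟩, rfl⟩ := hc
  have hB : IsPGroup p B := fun x => ⟨1, by rw [pow_one]; exact hexp x⟩
  have hpG : IsPGroup p (L ≃ₐ[LaurentSeries k] L) := hB.of_equiv e.symm
  have hntG : Nontrivial (L ≃ₐ[LaurentSeries k] L) := e.toEquiv.nontrivial
  have hcommG : ∀ x y : L ≃ₐ[LaurentSeries k] L, x * y = y * x := by
    intro x y
    apply e.injective
    rw [map_mul, map_mul, hcomm]
  have hexpG : ∀ x : L ≃ₐ[LaurentSeries k] L, x ^ p = 1 := by
    intro x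
    apply e.injective
    rw [map_pow, map_one, hexp]
  obtain ⟨v, hv, hR⟩ := hRAM k L
  have hRF := hRFV p k (LaurentSeries k) L (κ0 k) v hR hpG
  have hcond := hCOND p k L v hv hR hpG hntG
  obtain ⟨z, hz1, hz2, hz3⟩ := hCENT p (L ≃ₐ[LaurentSeries k] L) _ hpG hntG hRF
  have hz1' : z ≠ 1 := by
    rintro rfl
    rw [orderOf_one] at hz2
    exact hp.out.one_lt.ne hz2
  -- a subgroup of index `p` not containing `z`
  have hder : z ∉ ⁅(⊤ : Subgroup (L ≃ₐ[LaurentSeries k] L)), (⊤ : Subgroup (L ≃ₐ[LaurentSeries k] L))⁆ := by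
    intro h
    have h1 : ⁅(⊤ : Subgroup (L ≃ₐ[LaurentSeries k] L)), (⊤ : Subgroup (L ≃ₐ[LaurentSeries k] L))⁆ = ⊥ := by
      rw [Subgroup.commutator_eq_bot_iff_le_centralizer]
      intro x _
      rw [Subgroup.mem_centralizer_iff]
      intro y _
      exact hcommG y x
    rw [h1, Subgroup.mem_bot] at h
    exact hz1' h
  obtain ⟨J, _, hzJ, hJn, hcyc⟩ := hCHR p (L ≃ₐ[LaurentSeries k] L) hpG ⊤ z trivial hder
  have hJN : J.Normal := ⟨fun x hx g => by
    rw [hcommG g x, mul_inv_cancel_right]; exact hx⟩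
  set E : IntermediateField (LaurentSeries k) L := IntermediateField.fixedField J with hE
  have hfix : E.fixingSubgroup = J := IntermediateField.fixingSubgroup_fixedField J
  have hEgal : IsGalois (LaurentSeries k) E := by
    apply IsGalois.of_fixedField_normal_subgroup J
  obtain ⟨vE, hvE, hRE⟩ := hRAM k E
  have hrel : ∀ x : E, v (x : L) = Module.finrank E L • vE x := by
    intro x
    rw [hv, hvE]
    exact hTOW k E L x
  have hH := hHBF p k (LaurentSeries k) L (κ0 k) v hR hpG E vE hRE.tv hrel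
    ⟨z, by rw [hfix]; exact hzJ⟩
  -- the group of `E`
  have hcardE : Nat.card (E ≃ₐ[LaurentSeries k] E) = p := by
    have h1 : Nat.card (E ≃ₐ[LaurentSeries k] E) = Module.finrank (LaurentSeries k) E :=
      IsGalois.card_aut_eq_finrank _ _
    have hPE : IsPGroup p (E ≃ₐ[LaurentSeries k] E) :=
      IsPGroup.of_surjective hpG (AlgEquiv.restrictNormalHom (F := LaurentSeries k) (K₁ := L) E)
        (AlgEquiv.restrictNormalHom_surjective (F := LaurentSeries k) (K₁ := E) L)
    have hexpE : ∀ x : E ≃ₐ[LaurentSeries k] E, x ^ p = 1 := by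
      intro x
      obtain ⟨y, hy⟩ := AlgEquiv.restrictNormalHom_surjective (F := LaurentSeries k) (K₁ := E) L x
      rw [← hy, ← map_pow, hexpG, map_one]
    have hcycE : IsCyclic (E ≃ₐ[LaurentSeries k] E) := by
      obtain ⟨q, hg⟩ := hcyc.exists_generator
      obtain ⟨⟨g0, hg0⟩, rfl⟩ := QuotientGroup.mk_surjective q
      refine ⟨AlgEquiv.restrictNormalHom E g0, ?_⟩
      intro x
      obtain ⟨y, hy⟩ := AlgEquiv.restrictNormalHom_surjective (F := LaurentSeries k) (K₁ := E) L x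
      obtain ⟨i, hi⟩ := Subgroup.mem_zpowers_iff.mp (hg (QuotientGroup.mk ⟨y, trivial⟩))
      refine Subgroup.mem_zpowers_iff.mpr ⟨i, ?_⟩
      have h3 : (QuotientGroup.mk ((⟨g0, hg0⟩ : (⊤ : Subgroup (L ≃ₐ[LaurentSeries k] L))) ^ i) :
          (⊤ : Subgroup (L ≃ₐ[LaurentSeries k] L)) ⧸ J.subgroupOf ⊤) =
          QuotientGroup.mk ⟨y, trivial⟩ := hi
      rw [QuotientGroup.eq, Subgroup.mem_subgroupOf] at h3
      have h4 : (g0 ^ i)⁻¹ * y ∈ J := h3
      rw [← hfix, IntermediateField.mem_fixingSubgroup_iff] at h4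
      rw [← hy, ← map_zpow]
      apply AlgEquiv.ext
      intro a
      apply (algebraMap E L).injective
      have h5 : ∀ σ : L ≃ₐ[LaurentSeries k] L, algebraMap E L
          (AlgEquiv.restrictNormalHom E σ a) = σ (algebraMap E L a) :=
        fun σ => AlgEquiv.restrictNormal_commutes σ E a
      rw [h5, h5]
      have h6 := h4 (a : L) a.2
      have h7 : ((g0 ^ i)⁻¹ * y) (a : L) = (g0 ^ i)⁻¹ (y (a : L)) := rfl
      rw [h7] at h6
      have h8 := congrArg (g0 ^ i) h6
      have h9 : (g0 ^ i) ((g0 ^ i)⁻¹ (y (a : L))) = y (a : L) := by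
        rw [← AlgEquiv.mul_apply, mul_inv_cancel]; rfl
      rw [h9] at h8
      exact h8.symm
    obtain ⟨g, hg⟩ := hcycE.exists_generator
    have h2 : orderOf g = Nat.card (E ≃ₐ[LaurentSeries k] E) := orderOf_eq_card_of_forall_mem_zpowers hg
    have h3 : orderOf g ∣ p := orderOf_dvd_of_pow_eq_one (hexpE g)
    rcases (Nat.dvd_prime hp.out).mp h3 with h4 | h4
    · exfalso
      have h5 : ∀ x : E ≃ₐ[LaurentSeries k] E, x = 1 := by
        intro x
        have h6 : Nat.card (E ≃ₐ[LaurentSeries k] E) = 1 := by rw [← h2, h4]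
        have h7 : Subsingleton (E ≃ₐ[LaurentSeries k] E) := (Nat.card_eq_one_iff_unique.mp h6).1
        exact Subsingleton.elim _ _
      apply hzJ
      rw [← hfix, IntermediateField.mem_fixingSubgroup_iff]
      intro a ha
      have h8 := AlgEquiv.restrictNormal_commutes z E ⟨a, ha⟩
      have h9 : AlgEquiv.restrictNormal z E = 1 := h5 _
      rw [h9] at h8
      exact h8.symm
    · rw [← h2, h4]
  have hRFE := hRFV p k (LaurentSeries k) E (κ0 k) vE hRE (by
    exact IsPGroup.of_surjective hpG (AlgEquiv.restrictNormalHom (F := LaurentSeries k) (K₁ := L) E)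
        (AlgEquiv.restrictNormalHom_surjective (F := LaurentSeries k) (K₁ := E) L))
  obtain ⟨g, hg⟩ : ∃ g : E ≃ₐ[LaurentSeries k] E, g ≠ 1 := by
    have h1 : 1 < Nat.card (E ≃ₐ[LaurentSeries k] E) := by rw [hcardE]; exact hp.out.one_lt
    have h2 : Nontrivial (E ≃ₐ[LaurentSeries k] E) := Finite.one_lt_card_iff_nontrivial.mp h1
    exact exists_ne 1
  have hfrE : Module.finrank (LaurentSeries k) E = p := by
    rw [← IsGalois.card_aut_eq_finrank, hcardE]
  obtain ⟨_, _, m, _, hpm, _, _, _, hsm⟩ := hAS1 p k (LaurentSeries k) E (κ0 k) vE hRE hfrE g hg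
  have hcE := ela_cond p (fun τ : E ≃ₐ[LaurentSeries k] E => s vE τ) hRFE hcardE g hg
  refine ⟨m, hpm, ?_⟩
  have hsm' : ((s vE g : ℕ) : ℝ) = (m : ℝ) := by rw [hsm]
  -- the conductor is `phi (x0)`
  have hphi : phi (fun σ : L ≃ₐ[LaurentSeries k] L => s v σ)
      ((x0 (fun σ : L ≃ₐ[LaurentSeries k] L => s v σ) : ℕ) : ℝ) =
      Pool.Agent.Helper21.DN.cond (fun σ : L ≃ₐ[LaurentSeries k] L => s v σ) := by
    unfold phi Pool.Agent.Helper21.DN.cond
    congr 1
    rw [add_comm]
    congr 1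
    unfold S1
    push_cast
    refine Finset.sum_congr rfl fun x hx => ?_
    rw [min_eq_left]
    have h1 : s v x ≤ x0 (fun σ : L ≃ₐ[LaurentSeries k] L => s v σ) := by
      unfold x0
      exact Finset.le_sup (f := fun σ : L ≃ₐ[LaurentSeries k] L => s v σ) hx
    exact_mod_cast h1
  have hmono : ∀ a b : ℕ, a ≤ b → phi (fun σ : L ≃ₐ[LaurentSeries k] L => s v σ) (a : ℝ) ≤
      phi (fun σ : L ≃ₐ[LaurentSeries k] L => s v σ) (b : ℝ) := by
    intro a b hab
    rcases hab.eq_or_lt with h | h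
    · rw [h]
    · exact (hPHM (L ≃ₐ[LaurentSeries k] L) _ (a : ℝ) (b : ℝ) (Nat.cast_nonneg _)
        (by exact_mod_cast h)).le
  rw [hcond, ← hphi]
  apply le_antisymm
  · have h1 := hH.1 z (by rw [hfix]; exact hzJ)
    rw [hcE, hsm'] at h1
    have h2 : s v z = x0 (fun σ : L ≃ₐ[LaurentSeries k] L => s v σ) := hz3
    rw [h2] at h1
    exact h1
  · obtain ⟨σ, hσ1, hσ2⟩ := hH.2
    rw [hcE, hsm'] at hσ2
    rw [← hσ2]
    apply hmono
    unfold x0
    refine Finset.le_sup (f := fun σ : L ≃ₐ[LaurentSeries k] L => s v σ)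
      (Finset.mem_filter.mpr ⟨Finset.mem_univ σ, ?_⟩)
    rintro rfl
    exact hσ1 (Subgroup.one_mem _)

end Pool.Agent.Helper26.WR
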