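import Pool.Agent.Helper26.WR.Stmts
import Pool.Agent.Helper26.DNL.Tw

/-! # Module INTC: an integral conductor prime to `p` -/

set_option autoImplicit false

namespace Pool.Agent.Helper26.WR

open Pool.Agent.Helper21.DN Pool.Agent.Helper26.DNL

universe u

theorem st_INTC (hEMB : ST_EMB.{u}) (hCL : ST_CL.{u}) (hTWM : ST_TWM.{u}) (hASC : ST_ASC.{u})
    (hRAM : ST_RAM.{u}) (hQUO : ST_QUO.{u}) : ST_INTC.{u} := by
  intro p hp k _ _ _ P _ _ hP hnt
  classical
  have hKp : CharP (LaurentSeries k) p := charP_of_injective_ringHom (f := κ0 k)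
    (RingHom.injective _) p
  -- a central element of order `p`
  have hcnt : Nontrivial (Subgroup.center P) := hP.center_nontrivial
  obtain ⟨z, hz, hzp⟩ : ∃ z : P, z ∈ Subgroup.center P ∧ orderOf z = p := by
    have hcp : IsPGroup p (Subgroup.center P) := hP.to_subgroup _
    have hdvd : p ∣ Nat.card (Subgroup.center P) := by
      obtain ⟨n, hn, hn2⟩ := (hcp.nontrivial_iff_card).mp hcnt
      rw [hn2]
      exact dvd_pow_self p (by omega)
    obtain ⟨z, hz⟩ := exists_prime_orderOf_dvd_card' p hdvd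
    exact ⟨z, z.2, by rw [← hz, Subgroup.orderOf_coe]⟩
  -- a `P`-extension
  have hsub : ∀ σ : LaurentSeries k ≃ₐ[LaurentSeries k] LaurentSeries k, σ = 1 := by
    intro σ
    apply AlgEquiv.ext
    intro x
    have h1 := σ.commutes x
    exact h1
  obtain ⟨L, iF, iA, iA', iT, iFD, iG, i0, hi⟩ := hEMB p k (LaurentSeries k) P hP 1 (by
    intro σ
    exact ⟨1, by rw [hsub σ]; rfl⟩)
  clear hi iT iA'
  obtain ⟨c0, hc0⟩ := hCL p k L
  have hPL : IsPGroup p (L ≃ₐ[LaurentSeries k] L) := hP.of_equiv i0.symm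
  obtain ⟨n, hn1, hnc, hpn⟩ : ∃ n : ℕ, 1 ≤ n ∧ c0 < n ∧ ¬ p ∣ n := by
    refine ⟨p * (⌈c0⌉₊ + 1) + 1, by omega, ?_, ?_⟩
    · have h1 : c0 ≤ (⌈c0⌉₊ : ℝ) := Nat.le_ceil c0
      have h2 : ⌈c0⌉₊ + 1 ≤ p * (⌈c0⌉₊ + 1) := Nat.le_mul_of_pos_left _ hp.out.pos
      have h3 : ((⌈c0⌉₊ + 1 : ℕ) : ℝ) ≤ ((p * (⌈c0⌉₊ + 1) : ℕ) : ℝ) := by exact_mod_cast h2
      push_cast at h3 ⊢
      linarith
    · intro h
      have h1 := (Nat.dvd_add_right (Dvd.intro _ rfl : p ∣ p * (⌈c0⌉₊ + 1))).mp h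
      exact hp.out.one_lt.ne' (Nat.dvd_one.mp h1)
  refine ⟨n, hpn, ?_⟩
  obtain ⟨M, _, _, _, _, _, _, y, hPM, hy⟩ := hTWM p (LaurentSeries k) L hPL 1
    (fun _ => algebraMap (LaurentSeries k) L (HahnSeries.single (-(n : ℤ)) 1)) (by
      intro σ
      refine ⟨1, ?_⟩
      intro i
      have hi : i = 0 := Subsingleton.elim _ _
      rw [hi, Fin.sum_univ_one, Matrix.one_apply_eq, ZMod.val_one, Nat.cast_one, one_mul]
      exact σ.commutes _)
  obtain ⟨v, hv, hRam⟩ := hRAM k M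
  have hMp : CharP M p := charP_of_injective_algebraMap (algebraMap (LaurentSeries k) M).injective p
  obtain ⟨ρ, hρ⟩ : ∃ ρ : (M ≃ₐ[LaurentSeries k] M) →* P,
      ∀ σ, ρ σ = i0 (AlgEquiv.restrictNormalHom L σ) :=
    ⟨(i0 : (L ≃ₐ[LaurentSeries k] L) →* P).comp (AlgEquiv.restrictNormalHom L), fun σ => rfl⟩
  have hres : ∀ (σ : M ≃ₐ[LaurentSeries k] M) (a : L),
      algebraMap L M (AlgEquiv.restrictNormalHom L σ a) = σ (algebraMap L M a) := by
    intro σ a
    exact AlgEquiv.restrictNormal_commutes σ L a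
  have hρs : Function.Surjective ρ := by
    intro q
    obtain ⟨σ, hσ⟩ := AlgEquiv.restrictNormalHom_surjective (F := LaurentSeries k) (K₁ := L) M
      (i0.symm q)
    refine ⟨σ, ?_⟩
    rw [hρ, hσ, MulEquiv.apply_symm_apply]
  have hbig : ∀ σ : M ≃ₐ[LaurentSeries k] M, ρ σ ≠ 1 →
      phi (fun σ : M ≃ₐ[LaurentSeries k] M => s v σ) (s v σ) ≤ c0 := by
    intro σ hσ
    apply hc0 M v hv hRam hPM σ
    by_contra hcon
    push Not at hcon
    apply hσ
    rw [hρ]
    have : AlgEquiv.restrictNormalHom L σ = 1 := by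
      apply AlgEquiv.ext
      intro a
      apply (algebraMap L M).injective
      rw [hres, hcon]
      rfl
    rw [this, map_one]
  -- the levels
  have hyM : y 0 ^ p - y 0 = algebraMap (LaurentSeries k) M (HahnSeries.single (-(n : ℤ)) 1) := by
    rw [hy, ← IsScalarTower.algebraMap_apply (LaurentSeries k) L M]
  have hlev := hASC p k (LaurentSeries k) M (κ0 k) v hRam hPM
    (HahnSeries.single (-(n : ℤ)) 1) 0 (y 0) n hn1 hpn hyM (by
      have hp0 : p ≠ 0 := hp.out.ne_zero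
      rw [zero_pow hp0, sub_zero, sub_zero, hv]
      unfold val
      rw [Algebra.norm_algebraMap, HahnSeries.single_pow, one_pow,
        HahnSeries.orderTop_single one_ne_zero]
      congr 1
      simp)
  -- the embedding of `ZMod p`
  have hzpow : z ^ p = 1 := by rw [← hzp]; exact pow_orderOf_eq_one z
  have hval : ∀ a b : ZMod p, z ^ (a + b).val = z ^ a.val * z ^ b.val := by
    intro a b
    rw [← pow_add, ZMod.val_add]
    exact (pow_eq_pow_mod _ hzpow).symm
  obtain ⟨β, hβ⟩ : ∃ β : Multiplicative (Fin 1 → ZMod p) →* P,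
      ∀ u, β (Multiplicative.ofAdd u) = z ^ (u 0).val :=
    ⟨MonoidHom.mk' (fun u => z ^ (Multiplicative.toAdd u 0).val) (by
      intro a b
      rw [toAdd_mul, Pi.add_apply, hval]), fun u => rfl⟩
  have hβi : Function.Injective β := by
    rw [injective_iff_map_eq_one]
    intro a ha
    obtain ⟨u, rfl⟩ := Multiplicative.ofAdd.surjective a
    rw [hβ] at ha
    have h1 : p ∣ (u 0).val := by
      have h0 := orderOf_dvd_of_pow_eq_one ha
      rwa [hzp] at h0
    have h2 : (u 0).val < p := ZMod.val_lt _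
    have h3 : (u 0).val = 0 := Nat.eq_zero_of_dvd_of_lt h1 h2
    have h4 : u 0 = 0 := (ZMod.val_eq_zero _).mp h3
    have h5 : u = 0 := by
      funext i
      rw [Subsingleton.elim i 0]
      exact h4
    rw [h5]; rfl
  obtain ⟨b, ρ', hb, hρ'⟩ := tw_hom p 1 P β (fun _ => 1) (by
      intro x u
      rw [Matrix.one_mulVec, hβ]
      have h1 := Subgroup.mem_center_iff.mp (Subgroup.pow_mem _ hz (u 0).val) x
      rw [h1, mul_inv_cancel_right])
    (fun _ _ => by rw [one_mul]) (LaurentSeries k) M ρ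
    (fun _ => algebraMap (LaurentSeries k) M (HahnSeries.single (-(n : ℤ)) 1)) y (by
      intro i
      rw [Subsingleton.elim i 0]
      exact hyM)
    (by
      intro σ i
      rw [Subsingleton.elim i 0, Fin.sum_univ_one, Matrix.one_apply_eq, ZMod.val_one, Nat.cast_one,
        one_mul]
      exact σ.commutes _)
  have hb' : ∀ σ : M ≃ₐ[LaurentSeries k] M, ((b σ 0).val : M) = σ (y 0) - y 0 := by
    intro σ
    rw [hb, Fin.sum_univ_one, Matrix.one_apply_eq, ZMod.val_one, Nat.cast_one, one_mul]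
  have hbn : ∀ σ : M ≃ₐ[LaurentSeries k] M, b σ 0 ≠ 0 ↔ σ (y 0) ≠ y 0 := by
    intro σ
    rw [Ne, Ne, not_iff_not]
    constructor
    · intro h
      have h1 := hb' σ
      rw [h, ZMod.val_zero, Nat.cast_zero] at h1
      exact (sub_eq_zero.mp h1.symm)
    · intro h
      have h1 := hb' σ
      rw [h, sub_self, CharP.cast_eq_zero_iff M p] at h1
      have h2 : (b σ 0).val < p := ZMod.val_lt _
      exact (ZMod.val_eq_zero _).mp (Nat.eq_zero_of_dvd_of_lt h1 h2)
  have hmain := tw_lev p 1 P β hβi (M ≃ₐ[LaurentSeries k] M) (fun σ => s v σ) ρ ρ' b hρs hρ' c0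
    (n : ℝ) hbig hnc.le
    (by
      intro ψ hψ
      obtain ⟨σ, h1, h2⟩ := hlev.2
      refine ⟨σ, ?_, ?_⟩
      · rw [Fin.sum_univ_one]
        refine mul_ne_zero ?_ ((hbn σ).mpr h1)
        intro h
        apply hψ
        funext i
        rw [Subsingleton.elim i 0]
        exact h
      · rw [h2]; exact hnc)
    (by
      intro σ _ hbσ
      apply hlev.1 σ
      apply (hbn σ).mp
      intro h
      apply hbσ
      funext i
      rw [Subsingleton.elim i 0]
      exact h)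
    (by
      obtain ⟨σ, h1, h2⟩ := hlev.2
      refine ⟨σ, ?_, ?_, h2⟩
      · intro h
        exact (hbn σ).mpr h1 (by rw [h]; rfl)
      · rw [h2]; exact hnc)
  exact hQUO p k M v hv hRam hPM P ρ' hmain.1 _ hmain.2.1 hmain.2.2

end Pool.Agent.Helper26.WR
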