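import Pool.Agent.Helper26.WR.Stmts

/-! # Module NPC: `N_P` is the least common denominator of all conductors -/

set_option autoImplicit false

namespace Pool.Agent.Helper26.WR

open Pool.Agent.Helper21.DN

universe u

theorem st_NPC (hTBC : ST_TBC.{u}) (hRAM : ST_RAM.{u}) (hCOND : ST_COND.{u})
    (hNPU : ST_NPU.{u}) : ST_NPC.{u} := by
  intro p hp k _ _ _ P _ _ hP hnt
  classical
  have hcard0 : 0 < Nat.card P := Nat.card_pos
  -- all conductors lie in `(1 / |P|) ℕ`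
  have hall : ∀ c ∈ condSet k P, ∃ a : ℕ, (Nat.card P : ℝ) * c = (a : ℝ) := by
    rintro c ⟨L, _, _, hfd, hgal, ⟨e⟩, rfl⟩
    have hpG : IsPGroup p (L ≃ₐ[LaurentSeries k] L) := hP.of_equiv e.symm
    have hntG : Nontrivial (L ≃ₐ[LaurentSeries k] L) := e.toEquiv.nontrivial
    obtain ⟨v, hv, hR⟩ := hRAM k L
    have hc := hCOND p k L v hv hR hpG hntG
    have hcard : Nat.card P = Fintype.card (L ≃ₐ[LaurentSeries k] L) := by
      rw [← Nat.card_eq_fintype_card]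
      exact (Nat.card_congr e.toEquiv).symm
    refine ⟨S1 (fun σ : L ≃ₐ[LaurentSeries k] L => s v σ) +
      x0 (fun σ : L ≃ₐ[LaurentSeries k] L => s v σ), ?_⟩
    rw [hc]
    unfold Pool.Agent.Helper21.DN.cond
    rw [hcard]
    have h0 : (Fintype.card (L ≃ₐ[LaurentSeries k] L) : ℝ) ≠ 0 := by
      rw [← hcard]; exact_mod_cast hcard0.ne'
    rw [mul_div_cancel₀ _ h0]
    push_cast
    ring
  have hallz : ∀ c ∈ condSet k P, ∃ a : ℤ, ((Nat.card P : ℕ) : ℝ) * c = (a : ℝ) := by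
    intro c hc
    obtain ⟨a, ha⟩ := hall c hc
    exact ⟨a, by rw [ha]; norm_cast⟩
  obtain ⟨hpos, hdvd⟩ := hNPU k P (Nat.card P) hcard0 hallz
  refine ⟨hpos, hdvd, ?_⟩
  intro c hc
  by_contra hcon
  have hAM : AlmostAll k P (Nat.card P) := by
    refine ⟨hcard0, ?_⟩
    have : {c | c ∈ condSet k P ∧ ¬ ∃ z : ℤ, ((Nat.card P : ℕ) : ℝ) * c = (z : ℝ)} = ∅ := by
      ext c
      simp only [Set.mem_ofPred_eq, Set.mem_empty_iff_false, iff_false, not_and, not_not]
      exact hallz c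
    rw [this]
    exact Set.finite_empty
  have hmem : AlmostAll k P (NP k P) := Nat.sInf_mem (s := {N | AlmostAll k P N}) ⟨_, hAM⟩
  obtain ⟨a, ha⟩ := hall c hc
  have hc0 : c ≠ 0 := by
    rintro rfl
    exact hcon ⟨0, by simp⟩
  have hpc : (0 : ℝ) < (Nat.card P : ℝ) := by exact_mod_cast hcard0
  have hpdvd : p ∣ Nat.card P := by
    obtain ⟨n, hn, hn2⟩ := hP.nontrivial_iff_card.mp hnt
    rw [hn2]
    exact dvd_pow_self p (by omega)
  have hmp : ∀ l : ℕ, ¬ p ∣ 1 + Nat.card P * l := by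
    intro l h
    have h1 := (Nat.dvd_add_left (hpdvd.mul_right l)).mp h
    exact hp.out.one_lt.ne' (Nat.dvd_one.mp h1)
  have hsub : Set.range (fun l : ℕ => ((1 + Nat.card P * l : ℕ) : ℝ) * c) ⊆
      {c | c ∈ condSet k P ∧ ¬ ∃ z : ℤ, ((NP k P : ℕ) : ℝ) * c = (z : ℝ)} := by
    rintro _ ⟨l, rfl⟩
    refine ⟨hTBC p k P hP hnt c hc _ (hmp l), ?_⟩
    rintro ⟨z, hz⟩
    apply hcon
    refine ⟨z - (NP k P : ℤ) * l * a, ?_⟩
    push_cast at hz ⊢
    linear_combination hz - (NP k P : ℝ) * (l : ℝ) * ha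
  have hinj : Function.Injective (fun l : ℕ => ((1 + Nat.card P * l : ℕ) : ℝ) * c) := by
    intro l l' h
    have h1 : ((1 + Nat.card P * l : ℕ) : ℝ) = ((1 + Nat.card P * l' : ℕ) : ℝ) :=
      mul_right_cancel₀ hc0 h
    have h2 : 1 + Nat.card P * l = 1 + Nat.card P * l' := by exact_mod_cast h1
    have h3 : Nat.card P * l = Nat.card P * l' := by omega
    exact Nat.eq_of_mul_eq_mul_left hcard0 h3
  exact Set.infinite_range_of_injective hinj (hmem.2.subset hsub)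

end Pool.Agent.Helper26.WR
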