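import Pool.Agent.Helper26.WR.Stmts

/-! # Module TBC: tame base change of `k((t))` -/

set_option autoImplicit false

namespace Pool.Agent.Helper26.WR

open Pool.Agent.Helper21.DN

universe u

theorem tbc_alg (K N : Type u) [Field K] [Field N] (A1 A2 : Algebra K N)
    (h : @IsScalarTower K K N _ A2.toSMul A1.toSMul) : A1 = A2 := by
  apply Algebra.algebra_ext
  intro x
  have h1 : @algebraMap K N _ _ A1 x = A1.toSMul.smul x (1 : N) :=
    @Algebra.algebraMap_eq_smul_one K N _ _ A1 x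
  have h2 : @algebraMap K N _ _ A2 x = A2.toSMul.smul x (1 : N) :=
    @Algebra.algebraMap_eq_smul_one K N _ _ A2 x
  have h3 := h.smul_assoc x (1 : K) (1 : N)
  have h4 : A2.toSMul.smul (1 : K) (1 : N) = 1 := @one_smul K N _ A2.toModule.toMulAction 1
  have h5 : A2.toSMul.smul (x • (1 : K)) (1 : N) = A2.toSMul.smul x (1 : N) := by
    rw [smul_eq_mul, mul_one]
  have h6 : A2.toSMul.smul (x • (1 : K)) (1 : N) =
      A1.toSMul.smul x (A2.toSMul.smul (1 : K) (1 : N)) := h3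
  rw [h5, h4] at h6
  rw [h1, h2, h6]

theorem st_TBC (hEVA : ST_EVA.{u}) (hTAME : ST_TAME.{u}) (hCT : ST_CT.{u}) (hRAM : ST_RAM.{u})
    (hCOND : ST_COND.{u}) : ST_TBC.{u} := by
  intro p hp k _ _ _ P _ _ hP hnt c hc m hm
  classical
  obtain ⟨M0, iF0, iA0, hfd, hgal, ⟨e⟩, rfl⟩ := hc
  have hm1 : 1 ≤ m := by
    rcases Nat.eq_zero_or_pos m with h | h
    · exact absurd (by rw [h]; exact dvd_zero p) hm
    · exact h
  have hpG : IsPGroup p (M0 ≃ₐ[LaurentSeries k] M0) := hP.of_equiv e.symm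
  have hntG : Nontrivial (M0 ≃ₐ[LaurentSeries k] M0) := e.toEquiv.nontrivial
  obtain ⟨v, hv, _⟩ := hRAM k (LaurentSeries k)
  have hvo : ∀ x : LaurentSeries k, val k (LaurentSeries k) x = x.orderTop := by
    intro x
    unfold val
    rw [Algebra.norm_self]
    rfl
  obtain ⟨ι, hι1, hι2, hι3⟩ := hEVA k (LaurentSeries k) v hv (HahnSeries.single (m : ℤ) 1) m hm1 (by
    rw [hv, hvo, HahnSeries.orderTop_single one_ne_zero])
  obtain ⟨N, iF, A1, A2, iT, iFD1, iSep, iFD2, iG, j, r, h1, h2, h3⟩ :=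
    hTAME p k (LaurentSeries k) ι m hm1 hm (fun x => by rw [← hv]; exact hι3 x) M0 hpG
  have hA : A1 = A2 := tbc_alg (LaurentSeries k) N A1 A2 iT
  subst hA
  obtain ⟨vN, hvN, hRN⟩ := hRAM k N
  have hpN : IsPGroup p (N ≃ₐ[LaurentSeries k] N) := hpG.of_equiv r.symm
  have hntN : Nontrivial (N ≃ₐ[LaurentSeries k] N) := r.toEquiv.nontrivial
  have h4 := hCT p k (LaurentSeries k) N M0 vN hvN hpG hntG j r m hm1 hm h2 h3
  have h5 := hCOND p k N vN hvN hRN hpN hntN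
  refine ⟨N, iF, A1, iFD1, iG, ⟨r.trans e⟩, ?_⟩
  rw [h5, h4]

end Pool.Agent.Helper26.WR
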