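import Mathlib

set_option autoImplicit false

/-! # Generalised wreath products -/

namespace Pool.Agent.Helper26.WR

/-- `Q` acts on the families `f` (`f j : W j → B j`) by permuting the arguments:
`(g f) j w = f j (g⁻¹ w)`. -/
def permute {J : Type} (W B : J → Type) [∀ j, Group (B j)] (Q : Type) [Group Q]
    [∀ j, MulAction Q (W j)] : Q →* MulAut (∀ j, W j → B j) where
  toFun g :=
    { toFun := fun f j w => f j (g⁻¹ • w)
      invFun := fun f j w => f j (g • w)
      left_inv := fun f => by
        funext j w
        simp only [inv_smul_smul]
      right_inv := fun f => by
        funext j w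
        simp only [smul_inv_smul]
      map_mul' := fun f f' => rfl }
  map_one' := by
    ext f j w
    simp
  map_mul' g h := by
    ext f j w
    simp [mul_smul]

/-- The semidirect product of `∏ j, B j ^ W j` and `Q`, which permutes the factors of
`B j ^ W j` via its action on `W j`: the wreath product of `B` and `Q` if there is only one `j`,
the direct product of the `B j` if `Q` and all `W j` have one element. -/
abbrev WreathProduct {J : Type} (W B : J → Type) [∀ j, Group (B j)] (Q : Type) [Group Q]
    [∀ j, MulAction Q (W j)] : Type :=
  (∀ j, W j → B j) ⋊[permute W B Q] Q

end Pool.Agent.Helper26.WR
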