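import Pool.Agent.Helper20.NP.Stmts
import Pool.Agent.Helper26.WR.Defs

set_option autoImplicit false

/-! # Conductors of generalised wreath products (interfaces) -/

namespace Pool.Agent.Helper26.WR

open Pool.Agent.Helper21.DN

universe u

/-! ## Auxiliary notions -/

/-- `P1` acts on `W → B` by permuting the arguments -/
def permute1 (W B : Type) [Group B] (Q : Type) [Group Q] [MulAction Q W] :
    Q →* MulAut (W → B) where
  toFun g :=
    { toFun := fun f w => f (g⁻¹ • w)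
      invFun := fun f w => f (g • w)
      left_inv := fun f => by
        funext w
        simp only [inv_smul_smul]
      right_inv := fun f => by
        funext w
        simp only [smul_inv_smul]
      map_mul' := fun f f' => rfl }
  map_one' := by
    ext f w
    simp
  map_mul' g h := by
    ext f w
    simp [mul_smul]

/-- the wreath product -/
abbrev WP (W B : Type) [Group B] (Q : Type) [Group Q] [MulAction Q W] : Type :=
  (W → B) ⋊[permute1 W B Q] Q

open scoped Classical in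
/-- The sum of `f` over the elements outside `H`. -/
noncomputable def so {G : Type u} [Group G] [Fintype G] (f : G → ℕ) (H : Subgroup G) : ℕ :=
  ∑ g ∈ Finset.univ.filter (fun g => g ∉ H), f g

/-- the bound of `ST_CL` -/
def CLB (p : ℕ) (k : Type u) [Field k] (L : Type u) [Field L] [Algebra (LaurentSeries k) L]
    (c1 : ℝ) : Prop :=
  ∀ (M : Type u) [Field M] [Algebra (LaurentSeries k) M] [Algebra L M]
  [IsScalarTower (LaurentSeries k) L M] [FiniteDimensional (LaurentSeries k) M]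
  [IsGalois (LaurentSeries k) M] (v : AddValuation M (WithTop ℤ)), (∀ x, v x = val k M x) →
  Ram (κ0 k) v → IsPGroup p (M ≃ₐ[LaurentSeries k] M) → ∀ σ : M ≃ₐ[LaurentSeries k] M,
  (∃ x : L, σ (algebraMap L M x) ≠ algebraMap L M x) →
  phi (fun σ : M ≃ₐ[LaurentSeries k] M => s v σ) (s v σ) ≤ c1

/-- the finite Laurent polynomial with coefficient `a j` at `t ^ (-j)` -/
noncomputable def pol {k : Type u} [Field k] (a : ℕ →₀ k) : LaurentSeries k :=
  a.sum fun j c => HahnSeries.single (-(j : ℤ)) c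

open scoped Classical in
/-- the local factor -/
noncomputable def fac (p : ℕ) (k : Type u) [Field k] (w : ℕ) (B : Type) [Group B] : ℕ :=
  if p = 2 ∧ w ≠ 1 ∧ ∀ c ∈ condSet k B, ∃ n : ℤ, c = 2 * (n : ℝ) + 1 then w / 2 else w * NP k B

/-! ## Block F: fields of Laurent series -/

/-- completeness of a finite extension of `k((t))` -/
def ST_CPL : Prop := ∀ (k : Type u) [Field k] [IsAlgClosed k] (F : Type u) [Field F]
  [Algebra (LaurentSeries k) F] [FiniteDimensional (LaurentSeries k) F]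
  [Algebra.IsSeparable (LaurentSeries k) F] (v : AddValuation F (WithTop ℤ)),
  (∀ x, v x = val k F x) → ∀ x : ℕ → F,
  (∀ n : ℕ, ((n : ℤ) : WithTop ℤ) ≤ v (x (n + 1) - x n)) →
  ∃ y : F, ∀ n : ℕ, ((n : ℤ) : WithTop ℤ) ≤ v (y - x n)

/-- evaluation of Laurent series at an element of positive valuation -/
def ST_EVA : Prop := ∀ (k : Type u) [Field k] [IsAlgClosed k] (F : Type u) [Field F]
  [Algebra (LaurentSeries k) F] [FiniteDimensional (LaurentSeries k) F]
  [Algebra.IsSeparable (LaurentSeries k) F] (v : AddValuation F (WithTop ℤ)),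
  (∀ x, v x = val k F x) → ∀ (y : F) (m : ℕ), 1 ≤ m → v y = ((m : ℤ) : WithTop ℤ) →
  ∃ ι : LaurentSeries k →+* F,
    (∀ c : k, ι (κ0 k c) = algebraMap (LaurentSeries k) F (κ0 k c)) ∧
    ι (HahnSeries.single (1 : ℤ) (1 : k)) = y ∧
    ∀ x : LaurentSeries k, v (ι x) = m • x.orderTop

/-- a substitution of a uniformizer is surjective -/
def ST_SUR1 : Prop := ∀ (k : Type u) [Field k] (F : Type u) [Field F] (κ : k →+* F)
  (v : AddValuation F (WithTop ℤ)), TV κ v → ∀ ι : LaurentSeries k →+* F,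
  (∀ c, ι (κ0 k c) = κ c) → (∀ x, v (ι x) = x.orderTop) → Function.Surjective ι

/-- uniqueness of the extension of the valuation -/
def ST_UNQ : Prop := ∀ (k : Type u) [Field k] [IsAlgClosed k] (M : Type u) [Field M]
  [Algebra (LaurentSeries k) M] [FiniteDimensional (LaurentSeries k) M]
  [Algebra.IsSeparable (LaurentSeries k) M] (w : AddValuation M (WithTop ℤ)) (C : ℕ), 1 ≤ C →
  (∀ x : LaurentSeries k, w (algebraMap (LaurentSeries k) M x) = C • x.orderTop) →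
  ∀ x : M, Module.finrank (LaurentSeries k) M • w x = C • val k M x

/-- base change of the standing hypotheses, for an abstract intermediate field -/
def ST_BCF : Prop := ∀ (k K F M : Type u) [Field k] [Field K] [Field F] [Field M] [Algebra K F]
  [Algebra K M] [Algebra F M] [IsScalarTower K F M] [FiniteDimensional K M]
  [FiniteDimensional F M] [IsGalois K M] (κ : k →+* K) (v : AddValuation M (WithTop ℤ)),
  Ram κ v → Ram ((algebraMap K F).comp κ) v

/-- Herbrand's theorem, for an abstract intermediate field -/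
def ST_TOPB : Prop := ∀ (p : ℕ) [Fact p.Prime] (k F N M : Type u) [Field k] [CharP k p]
  [Field F] [Field N] [Field M] [Algebra F N] [Algebra F M] [Algebra N M] [IsScalarTower F N M]
  [FiniteDimensional F M] [FiniteDimensional F N] [IsGalois F M] [IsGalois F N] (κ : k →+* F)
  (v : AddValuation M (WithTop ℤ)), Ram κ v → IsPGroup p (M ≃ₐ[F] M) →
  ∀ (vN : AddValuation N (WithTop ℤ)), TV ((algebraMap F N).comp κ) vN →
  (∀ x : N, v (algebraMap N M x) = Module.finrank N M • vN x) → Nontrivial (N ≃ₐ[F] N) →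
  (∀ σ : M ≃ₐ[F] M, AlgEquiv.restrictNormalHom N σ ≠ 1 →
    phi (fun σ : M ≃ₐ[F] M => s v σ) (s v σ) ≤ cond (fun τ : N ≃ₐ[F] N => s vN τ)) ∧
  ∃ σ : M ≃ₐ[F] M, AlgEquiv.restrictNormalHom N σ ≠ 1 ∧
    phi (fun σ : M ≃ₐ[F] M => s v σ) (s v σ) = cond (fun τ : N ≃ₐ[F] N => s vN τ)

/-- the sum of `s` outside the preimage of a subgroup of the Galois group of a normal subfield -/
def ST_DIFF : Prop := ∀ (p : ℕ) [Fact p.Prime] (k K L M : Type u) [Field k] [CharP k p]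
  [Field K] [Field L] [Field M] [Algebra K L] [Algebra K M] [Algebra L M] [IsScalarTower K L M]
  [FiniteDimensional K M] [FiniteDimensional K L] [IsGalois K M] [IsGalois K L] (κ : k →+* K)
  (v : AddValuation M (WithTop ℤ)), Ram κ v → IsPGroup p (M ≃ₐ[K] M) →
  ∀ (vL : AddValuation L (WithTop ℤ)), TV ((algebraMap K L).comp κ) vL →
  (∀ x : L, v (algebraMap L M x) = Module.finrank L M • vL x) → ∀ H : Subgroup (L ≃ₐ[K] L),
  so (fun σ : M ≃ₐ[K] M => s v σ)
      (H.comap (AlgEquiv.restrictNormalHom L : (M ≃ₐ[K] M) →* (L ≃ₐ[K] L))) =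
    Module.finrank L M * so (fun σ : L ≃ₐ[K] L => s vL σ) H

/-- the Herbrand functions of `M / K` and `M / F` -/
def ST_PHIC : Prop := ∀ (K F M : Type u) [Field K] [Field F] [Field M] [Algebra K F]
  [Algebra K M] [Algebra F M] [IsScalarTower K F M] [FiniteDimensional K M]
  [FiniteDimensional F M] [IsGalois K M] (v : AddValuation M (WithTop ℤ))
  (H : Subgroup (M ≃ₐ[K] M)),
  (∀ σ : M ≃ₐ[K] M, σ ∈ H ↔ ∀ x : F, σ (algebraMap F M x) = algebraMap F M x) → ∀ u : ℝ,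
  (∀ σ : M ≃ₐ[K] M, σ ∉ H → (s v σ : ℝ) ≤ u) →
  (Fintype.card (M ≃ₐ[K] M) : ℝ) * phi (fun σ : M ≃ₐ[K] M => s v σ) u =
    (Fintype.card (M ≃ₐ[F] M) : ℝ) * phi (fun σ : M ≃ₐ[F] M => s v σ) u +
      (so (fun σ : M ≃ₐ[K] M => s v σ) H : ℝ)

/-- the Herbrand function of `M / K` is at least that of `M / F` divided by the index -/
def ST_PHIG : Prop := ∀ (K F M : Type u) [Field K] [Field F] [Field M] [Algebra K F]
  [Algebra K M] [Algebra F M] [IsScalarTower K F M] [FiniteDimensional K M]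
  [FiniteDimensional F M] [IsGalois K M] (v : AddValuation M (WithTop ℤ)) (u : ℝ), 0 ≤ u →
  (Fintype.card (M ≃ₐ[F] M) : ℝ) * phi (fun σ : M ≃ₐ[F] M => s v σ) u ≤
    (Fintype.card (M ≃ₐ[K] M) : ℝ) * phi (fun σ : M ≃ₐ[K] M => s v σ) u

/-- the conductors of extensions of a finite extension `F` of `k((t))` are conductors of
extensions of `k((t))` -/
def ST_CSF : Prop := ∀ (p : ℕ) [Fact p.Prime] (k : Type u) [Field k] [CharP k p] [IsAlgClosed k]
  (F M : Type u) [Field F] [Field M] [Algebra (LaurentSeries k) F] [Algebra (LaurentSeries k) M]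
  [Algebra F M] [IsScalarTower (LaurentSeries k) F M] [FiniteDimensional (LaurentSeries k) F]
  [FiniteDimensional (LaurentSeries k) M] [Algebra.IsSeparable (LaurentSeries k) F]
  [Algebra.IsSeparable (LaurentSeries k) M] [FiniteDimensional F M] [IsGalois F M]
  (v : AddValuation M (WithTop ℤ)), (∀ x, v x = val k M x) → IsPGroup p (M ≃ₐ[F] M) →
  Nontrivial (M ≃ₐ[F] M) → ∀ (B : Type) [Group B], Nonempty ((M ≃ₐ[F] M) ≃* B) →
  cond (fun σ : M ≃ₐ[F] M => s v σ) ∈ condSet k B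

/-- composition with an arbitrary extension of the base field -/
def ST_CMP : Prop := ∀ (K0 M0 F : Type u) [Field K0] [Field M0] [Field F] [Algebra K0 M0]
  [Algebra K0 F] [FiniteDimensional K0 M0] [IsGalois K0 M0],
  ∃ (N : Type u) (_ : Field N) (_ : Algebra F N) (_ : FiniteDimensional F N) (_ : IsGalois F N)
    (j : M0 →+* N) (r : (N ≃ₐ[F] N) →* (M0 ≃ₐ[K0] M0)),
    (∀ x, j (algebraMap K0 M0 x) = algebraMap F N (algebraMap K0 F x)) ∧
    (∀ σ x, j (r σ x) = σ (j x)) ∧ Function.Injective r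

/-- tame base change -/
def ST_TAME : Prop := ∀ (p : ℕ) [Fact p.Prime] (k : Type u) [Field k] [CharP k p]
  [IsAlgClosed k] (F : Type u) [Field F] [Algebra (LaurentSeries k) F]
  [FiniteDimensional (LaurentSeries k) F] [Algebra.IsSeparable (LaurentSeries k) F]
  (ι : LaurentSeries k →+* F) (m : ℕ), 1 ≤ m → ¬ p ∣ m →
  (∀ x : LaurentSeries k, val k F (ι x) = m • x.orderTop) →
  ∀ (M0 : Type u) [Field M0] [Algebra (LaurentSeries k) M0]
  [FiniteDimensional (LaurentSeries k) M0] [IsGalois (LaurentSeries k) M0],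
  IsPGroup p (M0 ≃ₐ[LaurentSeries k] M0) →
  ∃ (N : Type u) (_ : Field N) (_ : Algebra (LaurentSeries k) N) (_ : Algebra F N)
    (_ : IsScalarTower (LaurentSeries k) F N) (_ : FiniteDimensional (LaurentSeries k) N)
    (_ : Algebra.IsSeparable (LaurentSeries k) N) (_ : FiniteDimensional F N) (_ : IsGalois F N)
    (j : M0 →+* N) (r : (N ≃ₐ[F] N) ≃* (M0 ≃ₐ[LaurentSeries k] M0)),
    (∀ x, j (algebraMap (LaurentSeries k) M0 x) = algebraMap F N (ι x)) ∧
    (∀ σ x, j (r σ x) = σ (j x)) ∧ ∀ x, val k N (j x) = m • val k M0 x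

/-- the conductor after tame base change -/
def ST_CT : Prop := ∀ (p : ℕ) [Fact p.Prime] (k : Type u) [Field k] [CharP k p] [IsAlgClosed k]
  (F N M0 : Type u) [Field F] [Field N] [Field M0] [Algebra (LaurentSeries k) F]
  [Algebra (LaurentSeries k) N] [Algebra F N] [IsScalarTower (LaurentSeries k) F N]
  [FiniteDimensional (LaurentSeries k) N] [Algebra.IsSeparable (LaurentSeries k) N]
  [FiniteDimensional F N] [IsGalois F N] [Algebra (LaurentSeries k) M0]
  [FiniteDimensional (LaurentSeries k) M0] [IsGalois (LaurentSeries k) M0]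
  (v : AddValuation N (WithTop ℤ)), (∀ x, v x = val k N x) →
  IsPGroup p (M0 ≃ₐ[LaurentSeries k] M0) → Nontrivial (M0 ≃ₐ[LaurentSeries k] M0) →
  ∀ (j : M0 →+* N) (r : (N ≃ₐ[F] N) ≃* (M0 ≃ₐ[LaurentSeries k] M0)) (m : ℕ), 1 ≤ m → ¬ p ∣ m →
  (∀ σ x, j (r σ x) = σ (j x)) → (∀ x, val k N (j x) = m • val k M0 x) →
  cond (fun σ : N ≃ₐ[F] N => s v σ) = (m : ℝ) * conductor k M0

/-! ## Block N: the number `N_P` -/

/-- the set of conductors is closed under multiplication by integers prime to `p` -/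
def ST_TBC : Prop := ∀ (p : ℕ) [Fact p.Prime] (k : Type u) [Field k] [CharP k p] [IsAlgClosed k]
  (P : Type) [Group P] [Finite P], IsPGroup p P → Nontrivial P → ∀ c ∈ condSet k P,
  ∀ m : ℕ, ¬ p ∣ m → (m : ℝ) * c ∈ condSet k P

/-- `N_P` is the least common denominator of ALL conductors -/
def ST_NPC : Prop := ∀ (p : ℕ) [Fact p.Prime] (k : Type u) [Field k] [CharP k p] [IsAlgClosed k]
  (P : Type) [Group P] [Finite P], IsPGroup p P → Nontrivial P →
  0 < NP k P ∧ NP k P ∣ Nat.card P ∧ ∀ c ∈ condSet k P, ∃ a : ℤ, (NP k P : ℝ) * c = (a : ℝ)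

/-- an integral conductor prime to `p` -/
def ST_INTC : Prop := ∀ (p : ℕ) [Fact p.Prime] (k : Type u) [Field k] [CharP k p]
  [IsAlgClosed k] (P : Type) [Group P] [Finite P], IsPGroup p P → Nontrivial P →
  ∃ n : ℕ, ¬ p ∣ n ∧ (n : ℝ) ∈ condSet k P

/-- the integer `d` is prime to `p` -/
def ST_PAR : Prop := ∀ (p : ℕ) [Fact p.Prime] (k : Type u) [Field k] [CharP k p] [IsAlgClosed k]
  (L : Type u) [Field L] [Algebra (LaurentSeries k) L] [FiniteDimensional (LaurentSeries k) L]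
  [IsGalois (LaurentSeries k) L] (v : AddValuation L (WithTop ℤ)), (∀ x, v x = val k L x) →
  Ram (κ0 k) v → IsPGroup p (L ≃ₐ[LaurentSeries k] L) →
  ∀ H : Subgroup (L ≃ₐ[LaurentSeries k] L), ∃ d : ℕ,
  so (fun σ : L ≃ₐ[LaurentSeries k] L => s v σ) H = Nat.card H * d ∧ (H ≠ ⊤ → ¬ p ∣ d)

/-- the recursion for the conductors -/
def ST_REC : Prop := ∀ (p : ℕ) [Fact p.Prime] (k : Type u) [Field k] [CharP k p] [IsAlgClosed k]
  (P : Type) [Group P] [Finite P], IsPGroup p P → Nontrivial P → ∀ c ∈ condSet k P,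
  ∃ z : P, z ∈ Subgroup.center P ∧ orderOf z = p ∧
    ∀ (H : Subgroup P) (B : Type) [Group B] (f : H →* B), Function.Surjective f →
    ∀ hz : z ∈ H, f ⟨z, hz⟩ ≠ 1 → ∃ c' ∈ condSet k B, ∃ d : ℕ,
      (H.index : ℝ) * c = c' + (d : ℝ) ∧ (H ≠ ⊤ → ¬ p ∣ d)

/-! ## Block L: the lower bound -/

/-- reduced Artin-Schreier representatives -/
def ST_REDP : Prop := ∀ (p : ℕ) [Fact p.Prime] (k : Type u) [Field k] [CharP k p]
  [IsAlgClosed k] (f : LaurentSeries k), ∃ (h : LaurentSeries k) (a : ℕ →₀ k),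
  (∀ j ∈ a.support, ¬ p ∣ j) ∧ f - (h ^ p - h) = pol a

/-- Artin-Schreier generators for the characters -/
def ST_CHA : Prop := ∀ (p : ℕ) [Fact p.Prime] (k : Type u) [Field k] [CharP k p] [IsAlgClosed k]
  (M : Type u) [Field M] [Algebra (LaurentSeries k) M] [FiniteDimensional (LaurentSeries k) M]
  [IsGalois (LaurentSeries k) M]
  (χ : (M ≃ₐ[LaurentSeries k] M) →* Multiplicative (ZMod p)),
  ∃ (y : M) (a : ℕ →₀ k), (∀ j ∈ a.support, ¬ p ∣ j) ∧
    (∀ σ : M ≃ₐ[LaurentSeries k] M, σ y = y + (((χ σ).toAdd.val : ℕ) : M)) ∧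
    y ^ p - y = algebraMap (LaurentSeries k) M (pol a) ∧ (a = 0 → χ = 1)

/-- Artin-Schreier classes depending polynomially on a parameter -/
def ST_LAM : Prop := ∀ (p : ℕ) [Fact p.Prime] (k E : Type u) [Field k] [CharP k p]
  [IsAlgClosed k] [Field E] (κ : k →+* E) (v : AddValuation E (WithTop ℤ)), TV κ v →
  ∀ J : Finset ℕ, (∀ j ∈ J, ¬ p ∣ j) → ∀ y : ℕ → E,
  {l : k | ∃ h : E, h ^ p - h = ∑ j ∈ J, κ l ^ j * y j}.Infinite → ∀ j ∈ J, 0 ≤ v (y j)

/-- an element of the fixed field of `H` with prescribed valuation all of whose powers have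
traces with a pole -/
def ST_TRC : Prop := ∀ (p : ℕ) [Fact p.Prime] (k : Type u) [Field k] [CharP k p] [IsAlgClosed k]
  (L : Type u) [Field L] [Algebra (LaurentSeries k) L] [FiniteDimensional (LaurentSeries k) L]
  [IsGalois (LaurentSeries k) L] (v : AddValuation L (WithTop ℤ)), (∀ x, v x = val k L x) →
  Ram (κ0 k) v → ∀ (H : Subgroup (L ≃ₐ[LaurentSeries k] L)) (W : Type) [Fintype W]
  (τ : W → (L ≃ₐ[LaurentSeries k] L)),
  (Function.Bijective fun w => (QuotientGroup.mk (τ w) : (L ≃ₐ[LaurentSeries k] L) ⧸ H)) →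
  ∀ J : Finset ℕ, (∀ j ∈ J, ¬ p ∣ j) → ∀ (e : ℤ) (a m0 : ℕ),
  ∃ (T : L) (m : ℕ), m0 ≤ m ∧ ((p ^ a : ℕ) : ℤ) ∣ (m : ℤ) - e ∧ (∀ h ∈ H, h T = T) ∧
    v T = ((-((m * Nat.card H : ℕ) : ℤ) : ℤ) : WithTop ℤ) ∧ ∀ j ∈ J, v (∑ w, τ w (T ^ j)) < 0

/-- independence of the conjugates for almost all parameters -/
def ST_GEN : Prop := ∀ (p : ℕ) [Fact p.Prime] (k : Type u) [Field k] [CharP k p] [IsAlgClosed k]
  (L : Type u) [Field L] [Algebra (LaurentSeries k) L] [FiniteDimensional (LaurentSeries k) L]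
  [IsGalois (LaurentSeries k) L] (v : AddValuation L (WithTop ℤ)), (∀ x, v x = val k L x) →
  Ram (κ0 k) v → IsPGroup p (L ≃ₐ[LaurentSeries k] L) →
  ∀ (H : Subgroup (L ≃ₐ[LaurentSeries k] L)) (W : Type) [Fintype W]
  (τ : W → (L ≃ₐ[LaurentSeries k] L)),
  (Function.Bijective fun w => (QuotientGroup.mk (τ w) : (L ≃ₐ[LaurentSeries k] L) ⧸ H)) →
  ∀ J : Finset ℕ, (∀ j ∈ J, ¬ p ∣ j) → ∀ T : L, (∀ h ∈ H, h T = T) →
  (∀ j ∈ J, v (∑ w, τ w (T ^ j)) < 0) → ∀ a : W → ℕ → k, (∃ w, ∃ j ∈ J, a w j ≠ 0) →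
  {l : k | ∃ h : L, h ^ p - h = ∑ w, ∑ j ∈ J,
    algebraMap (LaurentSeries k) L (κ0 k (a w j)) *
      (algebraMap (LaurentSeries k) L (κ0 k l) * τ w T) ^ j}.Finite

/-- a big Galois extension -/
def ST_BIG : Prop := ∀ (p : ℕ) [Fact p.Prime] (K F L N : Type u) [Field K] [Field F] [Field L]
  [Field N] [Algebra K F] [Algebra K L] [Algebra F L] [IsScalarTower K F L]
  [FiniteDimensional K L] [IsGalois K L] [Algebra F N] [FiniteDimensional F N] [IsGalois F N],
  IsPGroup p (L ≃ₐ[K] L) → IsPGroup p (N ≃ₐ[F] N) →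
  ∃ (M : Type u) (_ : Field M) (_ : Algebra K M) (_ : Algebra F M) (_ : Algebra L M)
    (_ : Algebra N M) (_ : IsScalarTower K F M) (_ : IsScalarTower K L M)
    (_ : IsScalarTower F L M) (_ : IsScalarTower F N M) (_ : FiniteDimensional K M)
    (_ : IsGalois K M), IsPGroup p (M ≃ₐ[K] M)

/-- the induced homomorphism to the wreath product -/
def ST_IND : Prop := ∀ (p : ℕ) [Fact p.Prime] (G : Type u) [Group G] (P1 : Type) [Group P1]
  (W : Type) [Fintype W] [MulAction P1 W] (w0 : W) (B : Type) [Group B] [Finite B],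
  IsPGroup p B → ∀ r1 : G →* P1, Function.Surjective r1 → ∀ H : Subgroup G,
  (∀ g, g ∈ H ↔ r1 g • w0 = w0) → ∀ (β : H →* B) (τ : W → G), (∀ w, r1 (τ w) • w0 = w) →
  ∃ ρ : G →* WP W B P1, (∀ g, (ρ g).right = r1 g) ∧
    (∀ (g : G) (w : W) (h : (τ w)⁻¹ * g * τ ((r1 g)⁻¹ • w) ∈ H),
      (ρ g).left w = β ⟨(τ w)⁻¹ * g * τ ((r1 g)⁻¹ • w), h⟩) ∧
    ((∀ χ : W → (B →* Multiplicative (ZMod p)), (∃ w, χ w ≠ 1) →
      ∃ g : G, r1 g = 1 ∧ ∏ w, χ w ((ρ g).left w) ≠ 1) → Function.Surjective ρ)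

/-- surjectivity of the induced homomorphism, for Galois groups -/
def ST_SURJ : Prop := ∀ (p : ℕ) [Fact p.Prime] (K F L N M : Type u) [Field K] [CharP K p]
  [Field F] [Field L] [Field N] [Field M] [Algebra K F] [Algebra K L] [Algebra K M] [Algebra F L]
  [Algebra F N] [Algebra F M] [Algebra L M] [Algebra N M] [IsScalarTower K F L]
  [IsScalarTower K F M] [IsScalarTower K L M] [IsScalarTower F L M] [IsScalarTower F N M]
  [FiniteDimensional K M] [IsGalois K M] [FiniteDimensional K L] [IsGalois K L]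
  [FiniteDimensional F M] [IsGalois F M] [FiniteDimensional F N] [IsGalois F N]
  (P1 : Type) [Group P1] (i1 : (L ≃ₐ[K] L) ≃* P1) (W : Type) [Fintype W] [MulAction P1 W]
  (w0 : W),
  (∀ g : L ≃ₐ[K] L, i1 g • w0 = w0 ↔ ∀ x : F, g (algebraMap F L x) = algebraMap F L x) →
  ∀ τ : W → (L ≃ₐ[K] L), (∀ w, i1 (τ w) • w0 = w) →
  ∀ (B : Type) [Group B] [Finite B], IsPGroup p B → ∀ iB : (N ≃ₐ[F] N) ≃* B,
  ∀ (y : (B →* Multiplicative (ZMod p)) → N) (f : (B →* Multiplicative (ZMod p)) → F),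
  (∀ χ (σ : N ≃ₐ[F] N), σ (y χ) = y χ + (((χ (iB σ)).toAdd.val : ℕ) : N)) →
  (∀ χ, y χ ^ p - y χ = algebraMap F N (f χ)) →
  (∀ χ : W → (B →* Multiplicative (ZMod p)), (∃ w, χ w ≠ 1) →
    ∀ h : L, h ^ p - h ≠ ∑ w, τ w (algebraMap F L (f (χ w)))) →
  ∃ ρ : (M ≃ₐ[K] M) →* WP W B P1, Function.Surjective ρ ∧
    (∀ σ, (ρ σ).right = i1 (AlgEquiv.restrictNormalHom L σ)) ∧
    (∀ σ : M ≃ₐ[K] M, (ρ σ).right = 1 → ∀ w, (ρ σ).left w ≠ 1 → ∃ (g : M ≃ₐ[K] M)
      (σ' : M ≃ₐ[F] M), (∀ x, σ' x = (g⁻¹ * σ * g) x) ∧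
      iB (AlgEquiv.restrictNormalHom N σ') = (ρ σ).left w) ∧
    ∀ σ' : M ≃ₐ[F] M, (∀ x : L, σ' (algebraMap L M x) = algebraMap L M x) →
      AlgEquiv.restrictNormalHom N σ' ≠ 1 → ρ (AlgEquiv.restrictScalars K σ') ≠ 1

/-- the conductor of the extension with group the wreath product -/
def ST_ONE : Prop := ∀ (p : ℕ) [Fact p.Prime] (k : Type u) [Field k] [CharP k p] [IsAlgClosed k]
  (F L N : Type u) [Field F] [Field L] [Field N] [Algebra (LaurentSeries k) F]
  [Algebra (LaurentSeries k) L] [Algebra F L] [IsScalarTower (LaurentSeries k) F L]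
  [FiniteDimensional (LaurentSeries k) L] [IsGalois (LaurentSeries k) L]
  [Algebra (LaurentSeries k) N] [Algebra F N] [IsScalarTower (LaurentSeries k) F N]
  [FiniteDimensional (LaurentSeries k) N] [Algebra.IsSeparable (LaurentSeries k) N]
  [FiniteDimensional F N] [IsGalois F N]
  (vL : AddValuation L (WithTop ℤ)) (vN : AddValuation N (WithTop ℤ)),
  (∀ x, vL x = val k L x) → (∀ x, vN x = val k N x) → IsPGroup p (L ≃ₐ[LaurentSeries k] L) →
  ∀ (P1 : Type) [Group P1] (i1 : (L ≃ₐ[LaurentSeries k] L) ≃* P1) (W : Type) [Fintype W]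
  [MulAction P1 W] (w0 : W),
  (∀ g : L ≃ₐ[LaurentSeries k] L, i1 g • w0 = w0 ↔
    ∀ x : F, g (algebraMap F L x) = algebraMap F L x) →
  ∀ τ : W → (L ≃ₐ[LaurentSeries k] L), (∀ w, i1 (τ w) • w0 = w) →
  ∀ (B : Type) [Group B] [Finite B] [Nontrivial B], IsPGroup p B → ∀ iB : (N ≃ₐ[F] N) ≃* B,
  ∀ (y : (B →* Multiplicative (ZMod p)) → N) (f : (B →* Multiplicative (ZMod p)) → F),
  (∀ χ (σ : N ≃ₐ[F] N), σ (y χ) = y χ + (((χ (iB σ)).toAdd.val : ℕ) : N)) →
  (∀ χ, y χ ^ p - y χ = algebraMap F N (f χ)) →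
  (∀ χ : W → (B →* Multiplicative (ZMod p)), (∃ w, χ w ≠ 1) →
    ∀ h : L, h ^ p - h ≠ ∑ w, τ w (algebraMap F L (f (χ w)))) →
  ∀ c1 : ℝ, CLB p k L c1 → ∀ d : ℕ,
  so (fun g : L ≃ₐ[LaurentSeries k] L => s vL g)
      ((MulAction.stabilizer P1 w0).comap i1.toMonoidHom) =
    Nat.card ((MulAction.stabilizer P1 w0).comap i1.toMonoidHom) * d →
  c1 < cond (fun σ : N ≃ₐ[F] N => s vN σ) / (Fintype.card W : ℝ) →
  (cond (fun σ : N ≃ₐ[F] N => s vN σ) + (d : ℝ)) / (Fintype.card W : ℝ) ∈ condSet k (WP W B P1)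

/-- the lower bound for wreath products -/
def ST_LBW : Prop := ∀ (p : ℕ) [Fact p.Prime] (k : Type u) [Field k] [CharP k p] [IsAlgClosed k]
  (P1 : Type) [Group P1] [Finite P1], IsPGroup p P1 → ∀ (W : Type) [Fintype W] [Nonempty W]
  [MulAction P1 W] [MulAction.IsPretransitive P1 W] (B : Type) [Group B] [Finite B]
  [Nontrivial B], IsPGroup p B → ∃ d : ℕ, (Fintype.card W ≠ 1 → ¬ p ∣ d) ∧
  ∀ c ∈ condSet k B, ∀ (e : ℤ) (a : ℕ), 1 ≤ a → ¬ (p : ℤ) ∣ e →
  ∃ m : ℕ, ((p ^ a : ℕ) : ℤ) ∣ (m : ℤ) - e ∧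
    ((m : ℝ) * c + (d : ℝ)) / (Fintype.card W : ℝ) ∈ condSet k (WP W B P1)

/-! ## Block G: the groups -/

/-- the generalised wreath product is a nontrivial finite `p`-group, and it is a wreath product
for each of the `j` -/
def ST_ISOG : Prop := ∀ (p : ℕ) [Fact p.Prime] (J : Type) [Finite J] (W B : J → Type)
  [∀ j, Finite (W j)] [∀ j, Nonempty (W j)] [∀ j, Group (B j)] [∀ j, Finite (B j)]
  [∀ j, Nontrivial (B j)] (Q : Type) [Group Q] [Finite Q] [∀ j, MulAction Q (W j)]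
  [∀ j, MulAction.IsPretransitive Q (W j)], (∀ j, IsPGroup p (B j)) → IsPGroup p Q →
  Finite (WreathProduct W B Q) ∧ IsPGroup p (WreathProduct W B Q) ∧
  ∀ j0 : J, Nontrivial (WreathProduct W B Q) ∧
    ∃ (P1 : Type) (_ : Group P1) (_ : Finite P1) (_ : MulAction P1 (W j0))
      (_ : MulAction.IsPretransitive P1 (W j0)), IsPGroup p P1 ∧
      Nonempty (WreathProduct W B Q ≃* WP (W j0) (B j0) P1)

/-- the centre of the generalised wreath product -/
def ST_CENG : Prop := ∀ (J : Type) [Finite J] (W B : J → Type)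
  [∀ j, Finite (W j)] [∀ j, Nonempty (W j)] [∀ j, Group (B j)] [∀ j, Finite (B j)]
  [∀ j, Nontrivial (B j)] (Q : Type) [Group Q] [Finite Q] [∀ j, MulAction Q (W j)]
  [∀ j, MulAction.IsPretransitive Q (W j)],
  (∀ g : Q, (∀ (j : J) (w : W j), g • w = w) → g = 1) →
  ∀ z : WreathProduct W B Q, z ∈ Subgroup.center (WreathProduct W B Q) → z ≠ 1 →
  ∃ (j : J) (H : Subgroup (WreathProduct W B Q)) (f : H →* B j) (hz : z ∈ H),
    Function.Surjective f ∧ f ⟨z, hz⟩ ≠ 1 ∧ H.index = Nat.card (W j)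

open scoped Classical in
/-- the main theorem -/
def ST_FIN : Prop := ∀ (p : ℕ) [Fact p.Prime] (k : Type u) [Field k] [CharP k p]
  [IsAlgClosed k] (J : Type) [Fintype J] [Nonempty J] (W B : J → Type)
  [∀ j, Finite (W j)] [∀ j, Nonempty (W j)] [∀ j, Group (B j)] [∀ j, Finite (B j)]
  [∀ j, Nontrivial (B j)] (Q : Type) [Group Q] [Finite Q] [∀ j, MulAction Q (W j)]
  [∀ j, MulAction.IsPretransitive Q (W j)], (∀ j, IsPGroup p (B j)) → IsPGroup p Q →
  (∀ g : Q, (∀ (j : J) (w : W j), g • w = w) → g = 1) →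
  NP k (WreathProduct W B Q) = Finset.univ.lcm fun j => fac p k (Nat.card (W j)) (B j)

end Pool.Agent.Helper26.WR
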