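import Pool.Agent.Helper20.NP.All
import Pool.Agent.Helper26.WR.INTC
import Pool.Agent.Helper26.WR.NPC
import Pool.Agent.Helper26.WR.TBC
import Pool.Agent.Helper26.WR.ELA
import Pool.Agent.Helper67.WR.BCF
import Pool.Agent.Helper80.WR.BIG
import Pool.Agent.Helper41.WR.CENG
import Pool.Agent.Helper71.WR.CHA
import Pool.Agent.Helper82.WR.CPL
import Pool.Agent.Helper95.WR.CSF
import Pool.Agent.Helper91.WR.CMP
import Pool.Agent.Helper67.WR.CT
import Pool.Agent.Helper67.WR.DIFF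
import Pool.Agent.Helper71.WR.EVA
import Pool.Agent.Helper47.WR.GEN
import Pool.Agent.Helper59.WR.IND
import Pool.Agent.Helper15.WR.ISOG
import Pool.Agent.Helper67.WR.PHIC
import Pool.Agent.Helper67.WR.PHIG
import Pool.Agent.Helper94.WR.REC
import Pool.Agent.Helper48.WR.REDP
import Pool.Agent.Helper48.WR.PAR
import Pool.Agent.Helper71.WR.SUR1
import Pool.Agent.Helper11.WR.SURJ
import Pool.Agent.Helper52.WR.TOPB
import Pool.Agent.Helper24.WR.TRC
import Pool.Agent.Helper82.WR.UNQ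
import Pool.Agent.Helper53.WR.LBW
import Pool.Agent.Helper57.WR.ONE
import Pool.Agent.Helper77.WR.TAME
import Pool.Agent.Helper7.WR.LAM
import Pool.Agent.Helper94.WR.FIN

set_option autoImplicit false

/-! # Conductors of generalised wreath products (assembly) -/

namespace Pool.Agent.Helper26.WR

open Pool.Agent.Helper21.DN

universe u

theorem wr_CPL : ST_CPL.{u} := st_CPL all_VAL
theorem wr_EVA : ST_EVA.{u} := st_EVA wr_CPL
theorem wr_SUR1 : ST_SUR1.{u} := st_SUR1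
theorem wr_UNQ : ST_UNQ.{u} := st_UNQ all_VA
theorem wr_BCF : ST_BCF.{u} := st_BCF
theorem wr_TOPB : ST_TOPB.{u} := st_TOPB all_HBF
theorem wr_DIFF : ST_DIFF.{u} := st_DIFF all_P3
theorem wr_PHIC : ST_PHIC.{u} := st_PHIC
theorem wr_PHIG : ST_PHIG.{u} := st_PHIG
theorem wr_CSF : ST_CSF.{u} := st_CSF wr_EVA wr_SUR1 wr_UNQ all_VAL all_TOW all_RAM all_COND
theorem wr_CMP : ST_CMP.{u} := st_CMP
theorem wr_TAME : ST_TAME.{u} := st_TAME wr_CMP wr_UNQ all_VAL all_TOW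
theorem wr_CT : ST_CT.{u} := st_CT all_VAL all_RAM all_S1 all_COND
theorem wr_TBC : ST_TBC.{u} := st_TBC wr_EVA wr_TAME wr_CT all_RAM all_COND
theorem wr_NPC : ST_NPC.{u} := st_NPC wr_TBC all_RAM all_COND all_NPU
theorem wr_INTC : ST_INTC.{u} := st_INTC all_EMB all_CL all_TWM all_ASC all_RAM all_QUO
theorem wr_PAR : ST_PAR.{u} :=
  st_PAR all_RFV all_BCH all_P3 all_GRF all_OUT Pool.Agent.Helper20.NP.np_AS1
theorem wr_REC : ST_REC.{u} :=
  st_REC wr_CSF wr_BCF wr_TOPB wr_PHIC wr_PAR all_RAM all_COND all_CENT all_RFV all_VAL all_TOW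
    all_PHM
theorem wr_REDP : ST_REDP.{u} := st_REDP
theorem wr_CHA : ST_CHA.{u} := st_CHA wr_REDP
theorem wr_LAM : ST_LAM.{u} := st_LAM
theorem wr_TRC : ST_TRC.{u} := st_TRC
theorem wr_GEN : ST_GEN.{u} := st_GEN wr_LAM
theorem wr_BIG : ST_BIG.{u} := st_BIG
theorem wr_IND : ST_IND.{u} := st_IND
theorem wr_SURJ : ST_SURJ.{u} := st_SURJ wr_IND
theorem wr_ONE : ST_ONE.{u} :=
  st_ONE wr_BIG wr_SURJ wr_BCF wr_TOPB wr_DIFF wr_PHIC wr_PHIG all_RAM all_VAL all_TOW all_PHM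
    all_RFV all_QUO
theorem wr_LBW : ST_LBW.{u} :=
  st_LBW wr_EVA wr_TAME wr_CT wr_CHA wr_TRC wr_GEN wr_ONE wr_PAR all_EMB all_RAM all_TOW all_CL
    all_COND all_RFV all_VAL
theorem wr_ISOG : ST_ISOG := st_ISOG
theorem wr_CENG : ST_CENG := st_CENG
theorem wr_ELA : ST_ELA.{u} :=
  st_ELA all_RAM all_COND all_CENT all_RFV all_HBF all_PHM all_TOW all_CHR
    Pool.Agent.Helper20.NP.np_AS1
theorem wr_FIN : ST_FIN.{u} :=
  st_FIN wr_NPC wr_INTC wr_REC wr_LBW wr_ISOG wr_CENG all_NPU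

end Pool.Agent.Helper26.WR
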